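import Pool.Agent.H17.Tern

set_option autoImplicit false

namespace Pool.Agent.Results.MP_6f4f36_nt.Value
open Polynomial

open Classical in
/-- the ternary partitions of `n` -/
noncomputable def T (n : ℕ) : Finset n.Partition :=
  Finset.univ.filter (fun l : n.Partition => ∀ i ∈ l.parts, ∃ k : ℕ, i = 3 ^ k)

/-- the polynomial `h_λ` -/
noncomputable def h {n : ℕ} (l : n.Partition) : ℤ[X] :=
  ∏ i ∈ Finset.Icc 1 n, (1 + X ^ i) ^ (n / i - l.parts.count i)

/-- the normalised (here monic) greatest common divisor of the `h_λ` -/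
noncomputable def G (n : ℕ) : ℤ[X] := (T n).gcd h

/-- the numerator polynomial -/
noncomputable def num (n : ℕ) : ℤ[X] := (∑ l ∈ T n, h l) /ₘ G n

/-- its value at `-1` -/
noncomputable def s (n : ℕ) : ℤ := eval (-1) (num n)

theorem result : s 1 = 1 ∧ s 2 = 1 ∧ ∀ n : ℕ, 1 ≤ n →
    s (3 * n) = 3 ^ padicValNat 3 (3 * n).factorial ∧
    s (3 * n + 1) = 3 ^ padicValNat 3 (3 * n).factorial ∧
    s (3 * n + 2) = 3 ^ padicValNat 3 (3 * n).factorial := by
  have key : ∀ n, s n = 3 ^ padicValNat 3 n.factorial := fun n => by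
    rw [← Pool.Agent.H17.Tern.eval_num, ← Pool.Agent.H17.Tern.num_eq]; rfl
  have h2 : padicValNat 3 (Nat.factorial 2) = 0 := padicValNat.eq_zero_of_not_dvd (by decide)
  refine ⟨by rw [key]; simp, by rw [key, h2]; simp, fun n _ => ⟨key _, ?_, ?_⟩⟩
  · rw [key, padicValNat_factorial_mul_add n (by norm_num)]
  · rw [key, padicValNat_factorial_mul_add n (by norm_num)]

end Pool.Agent.Results.MP_6f4f36_nt.Value
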